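import Pool.Agent.Helper70.OB.Goals

/-! Packets OB-ROLLE and OB-ACC. -/

open Set Filter Topology
open Pool.Agent.Helper70.MM (om om_pos)

namespace Pool.Agent.Helper71.OB
open Pool.Agent.Helper70.OB

theorem rolle : ROLLE := by
  intro f f' b hc hd q x hx h0
  have key : ∀ i : Fin q, ∃ z, x i.castSucc < z ∧ z < x i.succ ∧ f' z = 0 := by
    intro i
    have hlt : x i.castSucc < x i.succ := hx (Fin.castSucc_lt_succ)
    have hb := (h0 i.castSucc).1
    obtain ⟨z, hz, hz'⟩ := exists_hasDerivAt_eq_zero (f := f) (f' := f') hlt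
      (hc.mono (fun t ht => le_trans hb ht.1)) (by rw [(h0 _).2, (h0 _).2])
      (fun t ht => hd t (lt_of_le_of_lt hb ht.1))
    exact ⟨z, hz.1, hz.2, hz'⟩
  choose z hz using key
  refine ⟨⟨z, hz⟩, fun ht => ?_⟩
  have hlast : ∃ w, x (Fin.last q) < w ∧ f' w = 0 := by
    set p := x (Fin.last q) with hp
    have hpb : b ≤ p := (h0 (Fin.last q)).1
    have hfp : f p = 0 := (h0 (Fin.last q)).2
    by_cases hall : ∀ c, p < c → f c = 0
    · refine ⟨p + 1, by linarith, ?_⟩
      have h1 := hd (p + 1) (by linarith)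
      have h2 : HasDerivAt f 0 (p + 1) := by
        refine (hasDerivAt_const (p + 1) (0 : ℝ)).congr_of_eventuallyEq ?_
        filter_upwards [Ioi_mem_nhds (show p < p + 1 by linarith)] with c hcc
        exact hall c hcc
      exact h1.unique h2
    · push Not at hall
      obtain ⟨c, hpc, hfc⟩ := hall
      have hev : ∀ᶠ d in atTop, |f d| < |f c| := by
        have := ht.abs
        rw [abs_zero] at this
        exact this.eventually_lt_const (abs_pos.2 hfc)
      obtain ⟨d, hd1, hd2⟩ := (hev.and (eventually_gt_atTop c)).exists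
      have hcont : ContinuousOn (fun t => f t ^ 2) (Icc p d) :=
        (hc.mono (fun t ht => le_trans hpb ht.1)).pow 2
      obtain ⟨w, hw, hmax⟩ := isCompact_Icc.exists_isMaxOn
        (nonempty_Icc.2 (le_of_lt (hpc.trans hd2))) hcont
      have hcw : f c ^ 2 ≤ f w ^ 2 := hmax ⟨hpc.le, hd2.le⟩
      have hcpos : 0 < f c ^ 2 := by positivity
      have hwne : f w ≠ 0 := by
        intro h
        rw [h] at hcw
        nlinarith
      have hwp : p < w := by
        rcases lt_or_eq_of_le hw.1 with h | h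
        · exact h
        · exact absurd (by rw [← h]; exact hfp) hwne
      have hwd : w < d := by
        rcases lt_or_eq_of_le hw.2 with h | h
        · exact h
        · exfalso
          rw [h] at hcw
          have := sq_lt_sq.2 hd1
          linarith
      refine ⟨w, hwp, ?_⟩
      have hloc : IsLocalMax (fun t => f t ^ 2) w := hmax.isLocalMax (Icc_mem_nhds hwp hwd)
      have hder := (hd w (lt_of_le_of_lt hpb hwp)).pow 2
      have h3 := hloc.hasDerivAt_eq_zero hder
      simp only [Nat.cast_ofNat, Nat.add_one_sub_one, pow_one, mul_eq_zero] at h3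
      rcases h3 with (h3 | h3) | h3
      · norm_num at h3
      · exact absurd h3 hwne
      · exact h3
  obtain ⟨w, hw, hw'⟩ := hlast
  refine ⟨Fin.snoc z w, ?_, ?_⟩
  · have hzs : ∀ i j : Fin q, i < j → z i < z j := by
      intro i j hij
      refine (hz i).2.1.trans_le (le_trans (hx.monotone ?_) (hz j).1.le)
      rw [Fin.le_def, Fin.val_succ, Fin.val_castSucc]
      exact hij
    intro i
    refine Fin.lastCases ?_ (fun i => ?_) i
    · intro j hj
      exact absurd (Fin.le_last j) (not_le.2 hj)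
    · intro j
      refine Fin.lastCases ?_ (fun j => ?_) j
      · intro _
        rw [Fin.snoc_last, Fin.snoc_castSucc]
        exact ((hz i).2.1.trans_le (hx.monotone (Fin.le_last _))).trans hw
      · intro hij
        rw [Fin.snoc_castSucc, Fin.snoc_castSucc]
        exact hzs i j (Fin.castSucc_lt_castSucc_iff.1 hij)
  · intro i
    refine Fin.lastCases ?_ (fun j => ?_) i
    · rw [Fin.snoc_last]
      exact ⟨lt_of_le_of_lt (h0 _).1 hw, hw'⟩
    · rw [Fin.snoc_castSucc]
      exact ⟨lt_of_le_of_lt (h0 _).1 (hz j).1, (hz j).2.2⟩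

theorem rollR (f f' : ℝ → ℝ) (a : ℝ) (hd : ∀ r, a < r → HasDerivAt f (f' r) r)
    (hz : ∀ δ > 0, ∃ r, a < r ∧ r < a + δ ∧ f r = 0) :
    ∀ δ > 0, ∃ r, a < r ∧ r < a + δ ∧ f' r = 0 := by
  intro δ hδ
  obtain ⟨r1, h1, h2, h3⟩ := hz δ hδ
  obtain ⟨r2, h4, h5, h6⟩ := hz (r1 - a) (by linarith)
  have hlt : r2 < r1 := by linarith
  obtain ⟨z, hz1, hz2⟩ := exists_hasDerivAt_eq_zero (f := f) (f' := f') hlt
    (fun t ht => (hd t (lt_of_lt_of_le h4 ht.1)).continuousAt.continuousWithinAt)
    (by rw [h3, h6]) (fun t ht => hd t (h4.trans ht.1))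
  exact ⟨z, h4.trans hz1.1, hz1.2.trans h2, hz2⟩

theorem rollL (f f' : ℝ → ℝ) (a : ℝ) (ha : 0 < a) (hd : ∀ r, 0 < r → HasDerivAt f (f' r) r)
    (hz : ∀ δ > 0, ∃ r, a - δ < r ∧ r < a ∧ f r = 0) :
    ∀ δ > 0, ∃ r, a - δ < r ∧ r < a ∧ f' r = 0 := by
  intro δ hδ
  obtain ⟨r1, h1, h2, h3⟩ := hz (min δ a) (lt_min hδ ha)
  have h1' : 0 < r1 := by have := min_le_right δ a; linarith
  have h1'' : a - δ < r1 := by have := min_le_left δ a; linarith
  obtain ⟨r2, h4, h5, h6⟩ := hz (a - r1) (by linarith)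
  have hlt : r1 < r2 := by linarith
  obtain ⟨z, hz1, hz2⟩ := exists_hasDerivAt_eq_zero (f := f) (f' := f') hlt
    (fun t ht => (hd t (lt_of_lt_of_le h1' ht.1)).continuousAt.continuousWithinAt)
    (by rw [h3, h6]) (fun t ht => hd t (h1'.trans ht.1))
  exact ⟨z, h1''.trans hz1.1, hz1.2.trans h5, hz2⟩

theorem zero_of (f : ℝ → ℝ) (a : ℝ) (hc : ContinuousAt f a)
    (hz : ∀ δ > 0, ∃ r, |r - a| < δ ∧ f r = 0) : f a = 0 := by
  by_contra hne
  have := hc.eventually_ne hne
  rw [Metric.eventually_nhds_iff] at this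
  obtain ⟨ε, hε, h⟩ := this
  obtain ⟨r, hr, hr'⟩ := hz ε hε
  exact h (by rw [Real.dist_eq]; exact hr) hr'

theorem acc (hB : BAS) (hW : WDER) : ACC := by
  intro k V P m hC a ha
  obtain ⟨hV, hVP, -, -⟩ := hB k V P m hC
  obtain ⟨hh, -, -⟩ := hW k V P m hC
  have hVa : ∀ j < k, ContinuousAt (V j) a := fun j hj =>
    (hV j hj).continuousAt (Ioi_mem_nhds ha)
  have hPz : ∀ j, j + 1 < k → V j a = 0 → WW k V P j a = 0 → P j a = 0 := by
    intro j hj h1 h2
    unfold WW at h2
    rw [h1, zero_mul, add_zero] at h2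
    rcases mul_eq_zero.1 h2 with h | h
    · exact absurd h (om_pos (k - 1) ha).ne'
    · exact h
  constructor
  · intro h0
    have step : ∀ j, j + 1 < k → (∀ δ > 0, ∃ r, a < r ∧ r < a + δ ∧ V j r = 0) →
        (∀ δ > 0, ∃ r, a < r ∧ r < a + δ ∧ WW k V P j r = 0) ∧
        (∀ δ > 0, ∃ r, a < r ∧ r < a + δ ∧ V (j + 1) r = 0) := by
      intro j hj hz
      have h1 := rollR (fun r => V j r / om (k - 1) r) _ a
        (fun r hr => (hh j hj r (ha.trans hr)).1)
        (fun δ hδ => by
          obtain ⟨r, h1, h2, h3⟩ := hz δ hδ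
          exact ⟨r, h1, h2, by simp [h3]⟩)
      have h2 : ∀ δ > 0, ∃ r, a < r ∧ r < a + δ ∧ WW k V P j r = 0 := by
        intro δ hδ
        obtain ⟨r, h2, h3, h4⟩ := h1 δ hδ
        refine ⟨r, h2, h3, ?_⟩
        have hr : 0 < r := ha.trans h2
        have hK := om_pos (k - 1) hr
        rcases div_eq_zero_iff.1 h4 with h | h
        · exact h
        · exact absurd h (by positivity)
      refine ⟨h2, ?_⟩
      have h3 := rollR (WW k V P j) _ a (fun r hr => (hh j hj r (ha.trans hr)).2) h2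
      intro δ hδ
      obtain ⟨r, h4, h5, h6⟩ := h3 δ hδ
      refine ⟨r, h4, h5, ?_⟩
      have hr : 0 < r := ha.trans h4
      have hK := om_pos (k - 1) hr
      rcases mul_eq_zero.1 (neg_eq_zero.1 h6) with h | h
      · exact absurd h (by positivity)
      · exact h
    have hall : ∀ j < k, ∀ δ > 0, ∃ r, a < r ∧ r < a + δ ∧ V j r = 0 := by
      intro j
      induction j with
      | zero => intro _; exact h0
      | succ j ih => intro hj; exact (step j hj (ih (by omega))).2
    intro j hj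
    have hz : V j a = 0 := zero_of _ a (hVa j hj) (fun δ hδ => by
      obtain ⟨r, h1, h2, h3⟩ := hall j hj δ hδ
      exact ⟨r, by rw [abs_lt]; constructor <;> linarith, h3⟩)
    refine ⟨hall j hj, hz, fun hj' => hPz j hj' hz ?_⟩
    exact zero_of _ a (hh j hj' a ha).2.continuousAt (fun δ hδ => by
      obtain ⟨r, h1, h2, h3⟩ := (step j hj' (hall j hj)).1 δ hδ
      exact ⟨r, by rw [abs_lt]; constructor <;> linarith, h3⟩)
  · intro h0
    have pos : ∀ (f : ℝ → ℝ), (∀ δ > 0, ∃ r, a - δ < r ∧ r < a ∧ f r = 0) →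
        ∀ δ > 0, ∃ r, 0 < r ∧ a - δ < r ∧ r < a ∧ f r = 0 := by
      intro f hf δ hδ
      obtain ⟨r, h1, h2, h3⟩ := hf (min δ a) (lt_min hδ ha)
      have h4 := min_le_right δ a
      have h5 := min_le_left δ a
      exact ⟨r, by linarith, by linarith, h2, h3⟩
    have step : ∀ j, j + 1 < k → (∀ δ > 0, ∃ r, a - δ < r ∧ r < a ∧ V j r = 0) →
        (∀ δ > 0, ∃ r, a - δ < r ∧ r < a ∧ WW k V P j r = 0) ∧
        (∀ δ > 0, ∃ r, a - δ < r ∧ r < a ∧ V (j + 1) r = 0) := by
      intro j hj hz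
      have h1 := rollL (fun r => V j r / om (k - 1) r) _ a ha
        (fun r hr => (hh j hj r hr).1)
        (fun δ hδ => by
          obtain ⟨r, h1, h2, h3⟩ := hz δ hδ
          exact ⟨r, h1, h2, by simp [h3]⟩)
      have h2 : ∀ δ > 0, ∃ r, a - δ < r ∧ r < a ∧ WW k V P j r = 0 := by
        intro δ hδ
        obtain ⟨r, hr, h2, h3, h4⟩ := pos _ h1 δ hδ
        refine ⟨r, h2, h3, ?_⟩
        have hK := om_pos (k - 1) hr
        rcases div_eq_zero_iff.1 h4 with h | h
        · exact h
        · exact absurd h (by positivity)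
      refine ⟨h2, ?_⟩
      have h3 := rollL (WW k V P j) _ a ha (fun r hr => (hh j hj r hr).2) h2
      intro δ hδ
      obtain ⟨r, hr, h4, h5, h6⟩ := pos _ h3 δ hδ
      refine ⟨r, h4, h5, ?_⟩
      have hK := om_pos (k - 1) hr
      rcases mul_eq_zero.1 (neg_eq_zero.1 h6) with h | h
      · exact absurd h (by positivity)
      · exact h
    have hall : ∀ j < k, ∀ δ > 0, ∃ r, a - δ < r ∧ r < a ∧ V j r = 0 := by
      intro j
      induction j with
      | zero => intro _; exact h0
      | succ j ih => intro hj; exact (step j hj (ih (by omega))).2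
    intro j hj
    have hz : V j a = 0 := zero_of _ a (hVa j hj) (fun δ hδ => by
      obtain ⟨r, h1, h2, h3⟩ := hall j hj δ hδ
      exact ⟨r, by rw [abs_lt]; constructor <;> linarith, h3⟩)
    refine ⟨hall j hj, hz, fun hj' => hPz j hj' hz ?_⟩
    exact zero_of _ a (hh j hj' a ha).2.continuousAt (fun δ hδ => by
      obtain ⟨r, h1, h2, h3⟩ := (step j hj' (hall j hj)).1 δ hδ
      exact ⟨r, by rw [abs_lt]; constructor <;> linarith, h3⟩)

end Pool.Agent.Helper71.OB
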